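import Pool.Agent.H58.NsG
import Pool.Agent.H58.NsDefs

namespace Pool.Agent.Results.MP_9fb650_an.AbelianSubgroup

open Pool.Agent.H90.FS Pool.Agent.H58.Ns Pool.Agent.H58.NsDefs

/-- B(G) = NS(G) + NS(G) for every discrete group that is finite or has an infinite abelian
subgroup, in particular for the integers. -/
theorem result :
    ∀ (G : Type) [Group G],
      (Finite G ∨ ∃ A : Subgroup G, Infinite A ∧ ∀ x ∈ A, ∀ y ∈ A, x * y = y * x) →
      ∀ f ∈ BG G, ∃ f₁ ∈ NS G, ∃ f₂ ∈ NS G, f = f₁ + f₂ := by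
  intro G _ hG f hf
  have : Split f := by
    rcases hG with h | ⟨A, h, hA⟩
    · exact split_finite (mkB f hf)
    · exact split_abelian (mkB f hf) A hA
  obtain ⟨f₁, h1, f₂, h2, n1, n2, h⟩ := this
  exact ⟨f₁, ⟨h1, n1⟩, f₂, ⟨h2, n2⟩, h⟩

end Pool.Agent.Results.MP_9fb650_an.AbelianSubgroup
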